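import Mathlib

/-!
# Primitive tensors of maximal primitive degree

For `m ≥ 2` and `n ≥ 2` we determine all nonnegative primitive tensors `A` of order `m` and
dimension `n` whose primitive degree is the largest possible, `(n-1)^2+1`.

Write `a_{i i₂ … i_m}` for the entries and `J = {i₂, …, i_m}` for the set of the last `m-1`
indices of an entry.  In the indexing `1, …, n` of the literature the result says:
`γ(A) = (n-1)^2+1` if and only if, after a simultaneous permutation of the indices,

* the `n+1` entries `a_{i, i+1, …, i+1}` (`i ≤ n-1`), `a_{n, 1, …, 1}` and `a_{n, 2, …, 2}` are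
  nonzero (these are the entries that are forced by the Wielandt matrix), and
* every nonzero entry `a_{i i₂ … i_m}` satisfies one of
  - `i ≤ n-1` and `i+1 ∈ J`;
  - `i = n` and `J` meets `{1, 2}`;
  - `i = n-1`, `1 ∈ J` and `J ≠ {1}`.

For `m = 2` the third alternative is empty and the condition says `Z(A) ≅ W_n`.
Below the indices run over `Fin n = {0, …, n-1}`, so every index is shifted by one.
-/

namespace Pool.Agent.Results.MP_9d720b_co.ExtremalPrimitiveTensors

open Finset

/-- A real tensor of order `m` and dimension `n`: `A i f` is the entry `a_{i i₂ … i_m}` where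
`f = (i₂, …, i_m)`. -/
abbrev Tensor (m n : ℕ) := Fin n → (Fin (m - 1) → Fin n) → ℝ

/-- `(A x)_i = ∑_{i₂, …, i_m} a_{i i₂ … i_m} x_{i₂} ⋯ x_{i_m}`. -/
noncomputable def app {m n : ℕ} (A : Tensor m n) (x : Fin n → ℝ) : Fin n → ℝ :=
  fun i => ∑ f : Fin (m - 1) → Fin n, A i f * ∏ k, x (f k)

/-- `T_A(x) = (A x)^{[1/(m-1)]}`. -/
noncomputable def T {m n : ℕ} (A : Tensor m n) (x : Fin n → ℝ) : Fin n → ℝ :=
  fun i => (app A x i) ^ ((1 : ℝ) / ((m : ℝ) - 1))

/-- The positive integers `r` with `T_A^r(x) > 0` (in every coordinate) for every nonzero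
`x ≥ 0`. -/
def goodExponents {m n : ℕ} (A : Tensor m n) : Set ℕ :=
  {r | 1 ≤ r ∧ ∀ x : Fin n → ℝ, (∀ i, 0 ≤ x i) → x ≠ 0 → ∀ i, 0 < (T A)^[r] x i}

/-- `A` is primitive. -/
def Primitive {m n : ℕ} (A : Tensor m n) : Prop := (goodExponents A).Nonempty

/-- The primitive degree `γ(A)`: the least good exponent. -/
noncomputable def gamma {m n : ℕ} (A : Tensor m n) : ℕ := sInf (goodExponents A)

/-- The tensor `b_{i₁ … i_m} = a_{σ(i₁) … σ(i_m)}`, isomorphic to `A`. -/
def relabel {m n : ℕ} (A : Tensor m n) (σ : Equiv.Perm (Fin n)) : Tensor m n :=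
  fun i f => A (σ i) (fun k => σ (f k))

/-- The explicit condition (indices `0, …, n-1`): the `n+1` Wielandt entries
`b_{i, i+1, …, i+1}`, `b_{n-1, 0, …, 0}`, `b_{n-1, 1, …, 1}` are nonzero, and every nonzero entry
`b_{i i₂ … i_m}` has `i+1` among `i₂, …, i_m`, or has `i = n-1` and one of `0, 1` among
`i₂, …, i_m`, or has `i = n-2` and `0` as well as some other index among `i₂, …, i_m`. -/
def WielandtType {m n : ℕ} (B : Tensor m n) : Prop :=
  (∀ i j : Fin n, ((j : ℕ) = i + 1 ∨ ((i : ℕ) + 1 = n ∧ (j : ℕ) ≤ 1)) → B i (fun _ => j) ≠ 0) ∧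
  (∀ (i : Fin n) (f : Fin (m - 1) → Fin n), B i f ≠ 0 →
    (∃ k, (f k : ℕ) = i + 1) ∨
    ((i : ℕ) + 1 = n ∧ ∃ k, (f k : ℕ) ≤ 1) ∨
    ((i : ℕ) + 2 = n ∧ (∃ k, (f k : ℕ) = 0) ∧ ∃ k, (f k : ℕ) ≠ 0))

/-! ### The support map -/

open Classical in
/-- The support map. -/
noncomputable def F {m n : ℕ} (A : Tensor m n) (S : Finset (Fin n)) : Finset (Fin n) :=
  univ.filter (fun i => ∃ f : Fin (m - 1) → Fin n, A i f ≠ 0 ∧ ∀ k, f k ∈ S)

theorem mem_F {m n : ℕ} {A : Tensor m n} {S : Finset (Fin n)} {i : Fin n} :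
    i ∈ F A S ↔ ∃ f : Fin (m - 1) → Fin n, A i f ≠ 0 ∧ ∀ k, f k ∈ S := by
  simp [F]

theorem F_mono {m n : ℕ} (A : Tensor m n) : Monotone (F A) := by
  intro S S' h i hi
  rw [mem_F] at hi ⊢
  obtain ⟨f, hf, hk⟩ := hi
  exact ⟨f, hf, fun k => h (hk k)⟩

theorem F_empty {m n : ℕ} (hm : 2 ≤ m) (A : Tensor m n) : F A ∅ = ∅ := by
  ext i
  rw [mem_F]
  constructor
  · rintro ⟨f, -, hk⟩
    exact absurd (hk ⟨0, by omega⟩) (by simp)
  · intro h; exact absurd h (by simp)

theorem T_spec {m n : ℕ} (hm : 2 ≤ m) (A : Tensor m n) (hA : ∀ i f, 0 ≤ A i f)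
    (x : Fin n → ℝ) (hx : ∀ i, 0 ≤ x i) (i : Fin n) :
    0 ≤ T A x i ∧ (0 < T A x i ↔ ∃ f : Fin (m - 1) → Fin n, A i f ≠ 0 ∧ ∀ k, 0 < x (f k)) := by
  have hexp : (0 : ℝ) < (1 : ℝ) / ((m : ℝ) - 1) := by
    have : (2 : ℝ) ≤ m := by exact_mod_cast hm
    exact div_pos one_pos (by linarith)
  have hterm : ∀ f : Fin (m - 1) → Fin n, 0 ≤ A i f * ∏ k, x (f k) := fun f =>
    mul_nonneg (hA i f) (Finset.prod_nonneg (fun k _ => hx (f k)))
  have hnn : 0 ≤ app A x i := Finset.sum_nonneg (fun f _ => hterm f)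
  refine ⟨Real.rpow_nonneg hnn _, ?_⟩
  have h1 : 0 < T A x i ↔ 0 < app A x i := by
    constructor
    · intro h
      rcases lt_or_eq_of_le hnn with h0 | h0
      · exact h0
      · exfalso
        have : T A x i = 0 := by
          unfold T
          rw [← h0]
          exact Real.zero_rpow (ne_of_gt hexp)
        linarith
    · intro h
      exact Real.rpow_pos_of_pos h _
  rw [h1]
  constructor
  · intro h
    by_contra hcon
    push Not at hcon
    have : app A x i = 0 := by
      unfold app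
      apply Finset.sum_eq_zero
      intro f _
      by_cases hf : A i f = 0
      · simp [hf]
      · obtain ⟨k, hk⟩ := hcon f hf
        have hk0 : x (f k) = 0 := le_antisymm hk (hx _)
        rw [Finset.prod_eq_zero (Finset.mem_univ k) hk0, mul_zero]
    linarith
  · rintro ⟨f, hf, hk⟩
    have h2 : 0 < A i f * ∏ k, x (f k) :=
      mul_pos (lt_of_le_of_ne (hA i f) (Ne.symm hf)) (Finset.prod_pos (fun k _ => hk k))
    exact lt_of_lt_of_le h2
      (Finset.single_le_sum (f := fun f : Fin (m - 1) → Fin n => A i f * ∏ k, x (f k))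
        (fun f _ => hterm f) (Finset.mem_univ f))

theorem T_iter {m n : ℕ} (hm : 2 ≤ m) (A : Tensor m n) (hA : ∀ i f, 0 ≤ A i f)
    (x : Fin n → ℝ) (hx : ∀ i, 0 ≤ x i) (S : Finset (Fin n)) (hS : ∀ i, i ∈ S ↔ 0 < x i)
    (r : ℕ) : (∀ i, 0 ≤ (T A)^[r] x i) ∧ ∀ i, (i ∈ (F A)^[r] S ↔ 0 < (T A)^[r] x i) := by
  induction r with
  | zero => exact ⟨hx, hS⟩
  | succ r ih =>
    obtain ⟨ih1, ih2⟩ := ih
    constructor
    · intro i
      rw [Function.iterate_succ_apply']
      exact (T_spec hm A hA _ ih1 i).1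
    · intro i
      rw [Function.iterate_succ_apply', Function.iterate_succ_apply', mem_F,
        (T_spec hm A hA _ ih1 i).2]
      constructor
      · rintro ⟨f, hf, hk⟩
        exact ⟨f, hf, fun k => (ih2 _).1 (hk k)⟩
      · rintro ⟨f, hf, hk⟩
        exact ⟨f, hf, fun k => (ih2 _).2 (hk k)⟩

theorem mem_goodExponents {m n : ℕ} (hm : 2 ≤ m) (A : Tensor m n) (hA : ∀ i f, 0 ≤ A i f)
    (r : ℕ) : r ∈ goodExponents A ↔ 1 ≤ r ∧ ∀ j, (F A)^[r] {j} = univ := by
  unfold goodExponents
  rw [Set.mem_ofPred_eq]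
  refine and_congr_right (fun _ => ?_)
  constructor
  · intro h j
    have hx : ∀ i, (0 : ℝ) ≤ (Pi.single j (1 : ℝ) : Fin n → ℝ) i := by
      intro i
      by_cases hij : i = j
      · subst hij; simp
      · simp [hij]
    have hx0 : (Pi.single j (1 : ℝ) : Fin n → ℝ) ≠ 0 := by
      intro h0
      have := congrFun h0 j
      simp at this
    have hS : ∀ i, i ∈ ({j} : Finset (Fin n)) ↔ (0 : ℝ) < (Pi.single j (1 : ℝ) : Fin n → ℝ) i := by
      intro i
      by_cases hij : i = j
      · subst hij; simp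
      · simp [hij]
    have := (T_iter hm A hA _ hx {j} hS r).2
    rw [Finset.eq_univ_iff_forall]
    intro i
    exact (this i).2 (h _ hx hx0 i)
  · intro h x hx hx0 i
    classical
    obtain ⟨j, hj⟩ : ∃ j, x j ≠ 0 := by
      by_contra hcon
      push Not at hcon
      exact hx0 (funext hcon)
    have hjpos : 0 < x j := lt_of_le_of_ne (hx j) (Ne.symm hj)
    have hS : ∀ i, i ∈ (univ.filter (fun i => 0 < x i) : Finset (Fin n)) ↔ 0 < x i := by
      intro i; simp
    rw [← (T_iter hm A hA x hx _ hS r).2 i]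
    have hsub : ({j} : Finset (Fin n)) ⊆ univ.filter (fun i => 0 < x i) := by
      intro v hv
      rw [Finset.mem_singleton] at hv
      subst hv
      exact (hS _).2 hjpos
    have := (F_mono A).iterate r hsub
    apply this
    rw [h j]
    exact Finset.mem_univ _

/-! ### Abstract monotone set maps -/

section Abstract

variable {n : ℕ} {G : Finset (Fin n) → Finset (Fin n)}

theorem iter_empty (h0 : G ∅ = ∅) (t : ℕ) : G^[t] ∅ = ∅ := by
  induction t with
  | zero => rfl
  | succ t ih => rw [Function.iterate_succ_apply, h0, ih]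

theorem nonempty_step (hn : 2 ≤ n) (h0 : G ∅ = ∅) {r : ℕ} (hr : ∀ j, G^[r] {j} = univ)
    (j : Fin n) : (G {j}).Nonempty := by
  by_contra hcon
  rw [Finset.not_nonempty_iff_eq_empty] at hcon
  have h1 := hr j
  rcases Nat.eq_zero_or_pos r with h | h
  · subst h
    rw [Function.iterate_zero, id] at h1
    have := congrArg Finset.card h1
    simp at this
    omega
  · obtain ⟨r', rfl⟩ : ∃ r', r = r' + 1 := ⟨r - 1, by omega⟩
    rw [Function.iterate_succ_apply, hcon, iter_empty h0] at h1
    have : j ∈ (univ : Finset (Fin n)) := Finset.mem_univ j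
    rw [← h1] at this
    simp at this

theorem good_succ (hn : 2 ≤ n) (hG : Monotone G) (h0 : G ∅ = ∅) {r : ℕ}
    (hr : ∀ j, G^[r] {j} = univ) (d : ℕ) : ∀ j, G^[r + d] {j} = univ := by
  induction d with
  | zero => exact hr
  | succ d ih =>
    intro j
    obtain ⟨w, hw⟩ := nonempty_step hn h0 hr j
    rw [← Nat.add_assoc, Function.iterate_succ_apply]
    have : G^[r + d] {w} ≤ G^[r + d] (G {j}) :=
      hG.iterate (r + d) (Finset.singleton_subset_iff.2 hw)
    rw [ih w] at this
    exact Finset.eq_univ_of_forall (fun i => this (Finset.mem_univ i))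

theorem good_of_le (hn : 2 ≤ n) (hG : Monotone G) (h0 : G ∅ = ∅) {r t : ℕ}
    (hr : ∀ j, G^[r] {j} = univ) (hrt : r ≤ t) : ∀ j, G^[t] {j} = univ := by
  obtain ⟨d, rfl⟩ := Nat.exists_eq_add_of_le hrt
  exact good_succ hn hG h0 hr d

/-- If `v` is reached from `j` in `a` steps and `{v}` spreads to everything in `b` steps then `{j}`
spreads to everything in `t ≥ a + b` steps. -/
theorem full_trans (hn : 2 ≤ n) (hG : Monotone G) (h0 : G ∅ = ∅) {r : ℕ}
    (hr : ∀ j, G^[r] {j} = univ) {j v : Fin n} {a b t : ℕ} (ha : v ∈ G^[a] {j})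
    (hb : G^[b] {v} = univ) (ht : a + b ≤ t) : G^[t] {j} = univ := by
  have hun : G univ = univ := by
    obtain ⟨w, hw⟩ := nonempty_step hn h0 hr v
    have h1 : G^[r + 1] {v} = univ := good_succ hn hG h0 hr 1 v
    rw [Function.iterate_succ_apply', hr v] at h1
    exact h1
  have hab : G^[a + b] {j} = univ := by
    rw [Nat.add_comm, Function.iterate_add_apply]
    have : G^[b] {v} ≤ G^[b] (G^[a] {j}) := hG.iterate b (Finset.singleton_subset_iff.2 ha)
    rw [hb] at this
    exact Finset.eq_univ_of_forall (fun i => this (Finset.mem_univ i))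
  obtain ⟨d, rfl⟩ := Nat.exists_eq_add_of_le ht
  clear ht
  induction d with
  | zero => exact hab
  | succ d ih => rw [← Nat.add_assoc, Function.iterate_succ_apply', ih, hun]

theorem full_of_closed (hn : 2 ≤ n) (hG : Monotone G) (h0 : G ∅ = ∅) {r : ℕ}
    (hr : ∀ j, G^[r] {j} = univ) {v : Fin n} {l : ℕ} (hl : 1 ≤ l) (hv : v ∈ G^[l] {v}) :
    G^[(n - 1) * l] {v} = univ := by
  set H : Finset (Fin n) → Finset (Fin n) := G^[l] with hH
  have hHmono : Monotone H := hG.iterate l
  have hinc : ∀ q, H^[q] {v} ⊆ H^[q + 1] {v} := by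
    intro q
    rw [Function.iterate_succ_apply]
    exact hHmono.iterate q (Finset.singleton_subset_iff.2 hv)
  have hpow : ∀ q, H^[q] = G^[q * l] := by
    intro q
    rw [hH, ← Function.iterate_mul, Nat.mul_comm]
  have hcard : ∀ q, H^[q] {v} = univ ∨ q + 1 ≤ (H^[q] {v}).card := by
    intro q
    induction q with
    | zero => right; simp
    | succ q ih =>
      rcases ih with ih | ih
      · left
        exact Finset.eq_univ_of_forall (fun i => hinc q (by rw [ih]; exact Finset.mem_univ i))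
      · by_cases heq : H^[q] {v} = H^[q + 1] {v}
        · left
          have hconst : ∀ p, H^[q + p] {v} = H^[q] {v} := by
            intro p
            induction p with
            | zero => rfl
            | succ p ihp =>
              rw [← Nat.add_assoc, Function.iterate_succ_apply', ihp,
                ← Function.iterate_succ_apply' H q, ← heq]
          have h1 : H^[q + r] {v} = univ := by
            rw [hpow]
            refine good_of_le hn hG h0 hr ?_ v
            calc r ≤ q + r := Nat.le_add_left _ _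
              _ = (q + r) * 1 := (Nat.mul_one _).symm
              _ ≤ (q + r) * l := Nat.mul_le_mul_left _ hl
          rw [← heq, ← hconst r, h1]
        · right
          have hss : H^[q] {v} ⊂ H^[q + 1] {v} :=
            Finset.ssubset_iff_subset_ne.2 ⟨hinc q, heq⟩
          have := Finset.card_lt_card hss
          omega
  have h2 := hcard (n - 1)
  rw [hpow] at h2
  rcases h2 with h2 | h2
  · exact h2
  · apply Finset.eq_univ_of_card
    rw [Fintype.card_fin]
    apply le_antisymm
    · calc _ ≤ (univ : Finset (Fin n)).card := Finset.card_le_card (Finset.subset_univ _)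
        _ = n := by simp
    · omega

/-- If singletons in `P` are mapped to singletons in `P`, then no singleton in `P` spreads. -/
theorem singletons_stay (hn : 2 ≤ n) (P : Fin n → Prop)
    (hP : ∀ v, P v → ∃ w, P w ∧ G {v} = {w}) {v : Fin n} (hv : P v) (t : ℕ) :
    G^[t] {v} ≠ univ := by
  have key : ∀ t, ∃ w, P w ∧ G^[t] {v} = {w} := by
    intro t
    induction t with
    | zero => exact ⟨v, hv, rfl⟩
    | succ t ih =>
      obtain ⟨w, hw, hw'⟩ := ih
      obtain ⟨u, hu, hu'⟩ := hP w hw
      exact ⟨u, hu, by rw [Function.iterate_succ_apply', hw', hu']⟩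
  obtain ⟨w, -, hw⟩ := key t
  rw [hw]
  intro h
  have := congrArg Finset.card h
  simp at this
  omega

/-- Structure of the digraph of singletons when some singleton needs more than `(n-1)^2` steps. -/
theorem wielandt_digraph (hn : 2 ≤ n) (hG : Monotone G) (h0 : G ∅ = ∅) {r : ℕ}
    (hr : ∀ j, G^[r] {j} = univ) {j0 : Fin n} (hj0 : G^[(n - 1) ^ 2] {j0} ≠ univ) :
    ∃ σ : Equiv.Perm (Fin n), σ ⟨0, by omega⟩ = j0 ∧
      ∀ i j : Fin n, σ i ∈ G {σ j} ↔ ((j : ℕ) = i + 1 ∨ ((i : ℕ) + 1 = n ∧ (j : ℕ) ≤ 1)) := by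
  choose φ hφ using (fun j => nonempty_step hn h0 hr j)
  set c : ℕ → Fin n := fun s => φ^[s] j0 with hc
  have hc0 : c 0 = j0 := rfl
  have hcs : ∀ s, c (s + 1) ∈ G {c s} := by
    intro s
    show φ^[s + 1] j0 ∈ _
    rw [Function.iterate_succ_apply']
    exact hφ _
  have trans : ∀ {u v w : Fin n} {a b : ℕ}, v ∈ G^[a] {u} → w ∈ G^[b] {v} →
      w ∈ G^[a + b] {u} := by
    intro u v w a b h1 h2
    rw [Nat.add_comm, Function.iterate_add_apply]
    exact hG.iterate b (Finset.singleton_subset_iff.2 h1) h2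
  have walk : ∀ s d, c (s + d) ∈ G^[d] {c s} := by
    intro s d
    induction d with
    | zero => simp
    | succ d ih =>
      rw [← Nat.add_assoc, Function.iterate_succ_apply']
      exact hG (Finset.singleton_subset_iff.2 ih) (hcs _)
  -- no short closed walks
  have short : ∀ s l, s ≤ n - 1 → 1 ≤ l → l + 2 ≤ n → c s ∉ G^[l] {c s} := by
    intro s l hs hl hln hmem
    have h1 := full_of_closed hn hG h0 hr hl hmem
    have h2 : c s ∈ G^[s] {c 0} := by simpa using walk 0 s
    apply hj0
    rw [← hc0]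
    refine full_trans hn hG h0 hr h2 h1 ?_
    have h3 : n - 1 = (n - 2) + 1 := by omega
    have h4 : l ≤ n - 2 := by omega
    have h5 : (n - 1) * l ≤ (n - 1) * (n - 2) := Nat.mul_le_mul_left _ h4
    calc s + (n - 1) * l ≤ (n - 1) + (n - 1) * (n - 2) := Nat.add_le_add hs h5
      _ = (n - 1) * ((n - 2) + 1) := by ring
      _ = (n - 1) ^ 2 := by rw [← h3]; ring
  have start : c 0 ∉ G^[n - 1] {c 0} := by
    intro hmem
    have h1 := full_of_closed hn hG h0 hr (by omega) hmem
    apply hj0
    rw [← hc0, pow_two, h1]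
  have cinj : ∀ a b, a < b → b ≤ n - 1 → c a ≠ c b := by
    intro a b hab hb heq
    have h1 : c a ∈ G^[b - a] {c a} := by
      have := walk a (b - a)
      rwa [Nat.add_sub_cancel' hab.le, ← heq] at this
    by_cases h2 : (b - a) + 2 ≤ n
    · exact short a (b - a) (by omega) (by omega) h2 h1
    · have ha : a = 0 := by omega
      have hb' : b - a = n - 1 := by omega
      subst ha
      rw [hb'] at h1
      exact start h1
  have csurj : ∀ v, ∃ s, s < n ∧ c s = v := by
    intro v
    have hinj : Function.Injective (fun s : Fin n => c s) := by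
      intro a b hab
      rcases lt_trichotomy (a : ℕ) b with h | h | h
      · exact absurd hab (cinj _ _ h (by omega))
      · exact Fin.ext h
      · exact absurd hab.symm (cinj _ _ h (by omega))
    obtain ⟨s, hs⟩ := (Finite.injective_iff_surjective.1 hinj) v
    exact ⟨s, s.2, hs⟩
  have back : ∀ s t, s < n → t ≤ s → c t ∈ G {c s} → (s + 1 = n ∧ t ≤ 1) := by
    intro s t hs hts hmem
    have h1 : c t ∈ G^[(s - t) + 1] {c t} := by
      have h2 := walk t (s - t)
      rw [Nat.add_sub_cancel' hts] at h2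
      rw [Function.iterate_succ_apply']
      exact hG (Finset.singleton_subset_iff.2 h2) hmem
    by_cases h3 : (s - t) + 1 + 2 ≤ n
    · exact absurd h1 (short t _ (by omega) (by omega) h3)
    · by_cases h4 : t = 0
      · subst h4
        by_cases h5 : s + 1 = n
        · omega
        · exfalso
          have h6 : (s - 0) + 1 = n - 1 := by omega
          rw [h6] at h1
          exact start h1
      · omega
  -- forward skips give closed walks
  have skip : ∀ s t u, t < n → s + 2 ≤ t → u ≤ s → c t ∈ G {c s} →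
      c u ∈ G {c (n - 1)} → c u ∈ G^[(s - u) + 1 + (n - 1 - t) + 1] {c u} := by
    intro s t u ht hst hus hmem hu
    have h1 := walk u (s - u)
    rw [Nat.add_sub_cancel' hus] at h1
    have h2 : c t ∈ G^[1] {c s} := by simpa using hmem
    have h3 := walk t (n - 1 - t)
    rw [Nat.add_sub_cancel' (by omega : t ≤ n - 1)] at h3
    have h4 : c u ∈ G^[1] {c (n - 1)} := by simpa using hu
    exact trans (trans (trans h1 h2) h3) h4
  have hlast : ∃ t, t ≤ 1 ∧ c t ∈ G {c (n - 1)} := by
    have h1 := hcs (n - 1)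
    obtain ⟨t, ht, hct⟩ := csurj (c (n - 1 + 1))
    rw [← hct] at h1
    exact ⟨t, (back (n - 1) t (by omega) (by omega) h1).2, h1⟩
  have edge0 : c 0 ∈ G {c (n - 1)} := by
    by_contra hno
    have h1 : c 1 ∈ G {c (n - 1)} := by
      obtain ⟨t, ht, hct⟩ := hlast
      have : t = 1 := by
        by_contra h
        have : t = 0 := by omega
        subst this
        exact hno hct
      subst this
      exact hct
    refine singletons_stay (G := G) hn (fun v => ∃ s, 1 ≤ s ∧ s < n ∧ c s = v) ?_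
      (v := c 1) ⟨1, le_refl _, by omega, rfl⟩ r (hr _)
    rintro v ⟨s, hs1, hsn, rfl⟩
    by_cases hs : s + 1 = n
    · have hsn1 : s = n - 1 := by omega
      refine ⟨c 1, ⟨1, le_refl _, by omega, rfl⟩, ?_⟩
      apply Finset.eq_singleton_iff_unique_mem.2
      refine ⟨by rw [hsn1]; exact h1, ?_⟩
      intro w hw
      obtain ⟨t, ht, rfl⟩ := csurj w
      have h2 := back s t hsn (by omega) hw
      have : t = 1 := by
        by_contra h
        have : t = 0 := by omega
        subst this
        rw [hsn1] at hw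
        exact hno hw
      rw [this]
    · refine ⟨c (s + 1), ⟨s + 1, by omega, by omega, rfl⟩, ?_⟩
      apply Finset.eq_singleton_iff_unique_mem.2
      refine ⟨hcs s, ?_⟩
      intro w hw
      obtain ⟨t, ht, rfl⟩ := csurj w
      rcases Nat.lt_or_ge s t with h2 | h2
      · rcases Nat.lt_or_ge (s + 1) t with h3 | h3
        · exfalso
          have h4 := skip s t 1 ht h3 hs1 hw h1
          exact short 1 _ (by omega) (by omega) (by omega) h4
        · have : t = s + 1 := by omega
          rw [this]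
      · exact absurd (back s t hsn h2 hw).1 hs
  have noskip : ∀ s t, t < n → s + 2 ≤ t → c t ∉ G {c s} := by
    intro s t ht hst hmem
    have h4 := skip s t 0 ht hst (by omega) hmem edge0
    by_cases h5 : (s - 0) + 1 + (n - 1 - t) + 1 + 2 ≤ n
    · exact short 0 _ (by omega) (by omega) h5 h4
    · have h6 : (s - 0) + 1 + (n - 1 - t) + 1 = n - 1 := by omega
      rw [h6] at h4
      exact start h4
  have edge1 : c 1 ∈ G {c (n - 1)} := by
    by_contra hno
    refine singletons_stay (G := G) hn (fun _ => True) ?_ (v := c 0) trivial r (hr _)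
    rintro v -
    obtain ⟨s, hsn, rfl⟩ := csurj v
    by_cases hs : s + 1 = n
    · have hsn1 : s = n - 1 := by omega
      refine ⟨c 0, trivial, ?_⟩
      apply Finset.eq_singleton_iff_unique_mem.2
      refine ⟨by rw [hsn1]; exact edge0, ?_⟩
      intro w hw
      obtain ⟨t, ht, rfl⟩ := csurj w
      have h2 := back s t hsn (by omega) hw
      have : t = 0 := by
        by_contra h
        have : t = 1 := by omega
        subst this
        rw [hsn1] at hw
        exact hno hw
      rw [this]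
    · refine ⟨c (s + 1), trivial, ?_⟩
      apply Finset.eq_singleton_iff_unique_mem.2
      refine ⟨hcs s, ?_⟩
      intro w hw
      obtain ⟨t, ht, rfl⟩ := csurj w
      rcases Nat.lt_or_ge s t with h2 | h2
      · rcases Nat.lt_or_ge (s + 1) t with h3 | h3
        · exact absurd hw (noskip s t ht h3)
        · have : t = s + 1 := by omega
          rw [this]
      · exact absurd (back s t hsn h2 hw).1 hs
  have edges : ∀ s t, s < n → t < n →
      (c t ∈ G {c s} ↔ (t = s + 1 ∨ (s + 1 = n ∧ t ≤ 1))) := by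
    intro s t hs ht
    constructor
    · intro h
      rcases Nat.lt_or_ge s t with h2 | h2
      · rcases Nat.lt_or_ge (s + 1) t with h3 | h3
        · exact absurd h (noskip s t ht h3)
        · left; omega
      · right; exact back s t hs h2 h
    · rintro (h | ⟨h1, h2⟩)
      · rw [h]; exact hcs s
      · have h3 : s = n - 1 := by omega
        rw [h3]
        rcases Nat.eq_zero_or_pos t with h4 | h4
        · rw [h4]; exact edge0
        · have : t = 1 := by omega
          rw [this]; exact edge1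
  -- the relabelling
  set g : Fin n → ℕ := fun x => if (x : ℕ) = 0 then 0 else n - x with hg
  have hglt : ∀ x, g x < n := by
    intro x
    simp only [hg]
    split_ifs <;> omega
  have hinj : Function.Injective (fun x : Fin n => c (g x)) := by
    intro a b hab
    have hab' : g a = g b := by
      rcases lt_trichotomy (g a) (g b) with h | h | h
      · exact absurd hab (cinj _ _ h (by have := hglt b; omega))
      · exact h
      · exact absurd hab.symm (cinj _ _ h (by have := hglt a; omega))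
    simp only [hg] at hab'
    apply Fin.ext
    have ha := a.2
    have hb := b.2
    split_ifs at hab' <;> omega
  refine ⟨Equiv.ofBijective _ (Finite.injective_iff_bijective.1 hinj), ?_, ?_⟩
  · simp [hg, hc0]
  · intro i j
    rw [Equiv.ofBijective_apply, Equiv.ofBijective_apply, edges _ _ (hglt j) (hglt i)]
    obtain ⟨i, hi⟩ := i
    obtain ⟨j, hj⟩ := j
    simp only [hg]
    by_cases h1 : i = 0 <;> by_cases h2 : j = 0
    · rw [if_pos h1, if_pos h2]; omega
    · rw [if_pos h1, if_neg h2]; omega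
    · rw [if_neg h1, if_pos h2]; omega
    · rw [if_neg h1, if_neg h2]; omega

end Abstract

/-! ### The entries -/

section Entries

variable {m k : ℕ} {A : Tensor m (k + 1)} {σ : Equiv.Perm (Fin (k + 1))}

/-- `x` is reached from label `j` at time `t`. -/
def P (A : Tensor m (k + 1)) (σ : Equiv.Perm (Fin (k + 1))) (j : Fin (k + 1)) (t x : ℕ) : Prop :=
  ∃ hx : x < k + 1, σ ⟨x, hx⟩ ∈ (F A)^[t] {σ j}

theorem P_zero (j : Fin (k + 1)) : P A σ j 0 j := ⟨j.2, by simp⟩

theorem P_entry {j : Fin (k + 1)} {t : ℕ} {i : Fin (k + 1)} {f : Fin (m - 1) → Fin (k + 1)}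
    (hf : relabel A σ i f ≠ 0) (h : ∀ l, P A σ j t (f l)) : P A σ j (t + 1) i := by
  refine ⟨i.2, ?_⟩
  rw [Function.iterate_succ_apply', mem_F]
  refine ⟨fun l => σ (f l), hf, fun l => ?_⟩
  obtain ⟨h1, h2⟩ := h l
  exact h2

theorem P_succ_iff {j : Fin (k + 1)} {t x : ℕ} : P A σ j (t + 1) x ↔
    ∃ i : Fin (k + 1), (i : ℕ) = x ∧ ∃ f : Fin (m - 1) → Fin (k + 1), relabel A σ i f ≠ 0 ∧
      ∀ l, P A σ j t (f l) := by
  constructor
  · rintro ⟨hx, h⟩
    rw [Function.iterate_succ_apply', mem_F] at h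
    obtain ⟨f, hf, hl⟩ := h
    refine ⟨⟨x, hx⟩, rfl, fun l => σ.symm (f l), ?_, fun l => ⟨(σ.symm (f l)).2, ?_⟩⟩
    · unfold relabel
      simpa using hf
    · simpa using hl l
  · rintro ⟨i, rfl, f, hf, hl⟩
    exact P_entry hf hl

/-- The Wielandt entries. -/
def WE (A : Tensor m (k + 1)) (σ : Equiv.Perm (Fin (k + 1))) : Prop :=
  ∀ i j : Fin (k + 1), ((j : ℕ) = i + 1 ∨ ((i : ℕ) + 1 = k + 1 ∧ (j : ℕ) ≤ 1)) →
    relabel A σ i (fun _ => j) ≠ 0

theorem P_down (hW : WE A σ) {j : Fin (k + 1)} {t x : ℕ} (h : P A σ j t (x + 1)) :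
    P A σ j (t + 1) x := by
  obtain ⟨hx, h'⟩ := h
  have h1 := hW ⟨x, by omega⟩ ⟨x + 1, hx⟩ (Or.inl rfl)
  exact P_entry (i := ⟨x, by omega⟩) h1 (fun _ => ⟨hx, h'⟩)

theorem P_wrap (hW : WE A σ) {j : Fin (k + 1)} {t x : ℕ} (hx1 : x ≤ 1) (h : P A σ j t x) :
    P A σ j (t + 1) k := by
  obtain ⟨hx, h'⟩ := h
  have h1 := hW ⟨k, by omega⟩ ⟨x, hx⟩ (Or.inr ⟨rfl, hx1⟩)
  exact P_entry (i := ⟨k, by omega⟩) h1 (fun _ => ⟨hx, h'⟩)

theorem P_rep0 (hW : WE A σ) (hk : 1 ≤ k) : ∀ t x a b : ℕ, x ≤ k →
    t + 1 + x = (k + 1) + a * k + b * (k + 1) → P A σ 0 (t + 1) x := by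
  intro t
  induction t with
  | zero =>
    intro x a b hx h
    have hxk : x = k := by omega
    rw [hxk]
    exact P_wrap hW (Nat.zero_le 1) (P_zero 0)
  | succ t ih =>
    intro x a b hx h
    rcases Nat.lt_or_ge x k with hxk | hxk
    · exact P_down hW (ih (x + 1) a b (by omega) (by omega))
    · have hxk' : x = k := by omega
      subst hxk'
      rcases Nat.eq_zero_or_pos b with hb | hb
      · rcases Nat.eq_zero_or_pos a with ha | ha
        · subst ha; subst hb; omega
        · obtain ⟨a', rfl⟩ : ∃ a', a = a' + 1 := ⟨a - 1, by omega⟩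
          refine P_wrap hW (le_refl 1) (ih 1 a' b hk ?_)
          have : (a' + 1) * x = a' * x + x := by ring
          omega
      · obtain ⟨b', rfl⟩ : ∃ b', b = b' + 1 := ⟨b - 1, by omega⟩
        refine P_wrap hW (Nat.zero_le 1) (ih 0 a b' (Nat.zero_le _) ?_)
        have : (b' + 1) * (x + 1) = b' * (x + 1) + (x + 1) := by ring
        omega

theorem P_repj (hW : WE A σ) (hk : 1 ≤ k) (j : Fin (k + 1)) (hj : 1 ≤ (j : ℕ)) :
    ∀ t x a b : ℕ, x ≤ k → t + x = j + a * k + b * (k + 1) → P A σ j t x := by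
  have hjk := j.2
  intro t
  induction t with
  | zero =>
    intro x a b hx h
    rcases Nat.eq_zero_or_pos b with hb | hb
    · rcases Nat.eq_zero_or_pos a with ha | ha
      · subst ha; subst hb
        have : x = j := by omega
        rw [this]
        exact P_zero j
      · exfalso
        have : 1 * k ≤ a * k := Nat.mul_le_mul_right _ ha
        omega
    · exfalso
      have : 1 * (k + 1) ≤ b * (k + 1) := Nat.mul_le_mul_right _ hb
      omega
  | succ t ih =>
    intro x a b hx h
    rcases Nat.lt_or_ge x k with hxk | hxk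
    · exact P_down hW (ih (x + 1) a b (by omega) (by omega))
    · have hxk' : x = k := by omega
      subst hxk'
      rcases Nat.eq_zero_or_pos b with hb | hb
      · rcases Nat.eq_zero_or_pos a with ha | ha
        · subst ha; subst hb; omega
        · obtain ⟨a', rfl⟩ : ∃ a', a = a' + 1 := ⟨a - 1, by omega⟩
          refine P_wrap hW (le_refl 1) (ih 1 a' b hk ?_)
          have : (a' + 1) * x = a' * x + x := by ring
          omega
      · obtain ⟨b', rfl⟩ : ∃ b', b = b' + 1 := ⟨b - 1, by omega⟩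
        refine P_wrap hW (Nat.zero_le 1) (ih 0 a b' (Nat.zero_le _) ?_)
        have : (b' + 1) * (x + 1) = b' * (x + 1) + (x + 1) := by ring
        omega

theorem rep_large {k : ℕ} (hk : 1 ≤ k) {N : ℕ} (hN : k * (k - 1) ≤ N) :
    ∃ a b, N = a * k + b * (k + 1) := by
  have h1 : N % k < k := Nat.mod_lt _ hk
  have h2 : k - 1 ≤ N / k := by
    rw [Nat.le_div_iff_mul_le hk, Nat.mul_comm]
    exact hN
  obtain ⟨a, ha⟩ : ∃ a, N / k = N % k + a := Nat.exists_eq_add_of_le (by omega)
  refine ⟨a, N % k, ?_⟩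
  have h3 := Nat.div_add_mod N k
  rw [ha] at h3
  calc N = k * (N % k + a) + N % k := h3.symm
    _ = a * k + N % k * (k + 1) := by ring

theorem full_of_P {j : Fin (k + 1)} {t : ℕ} (h : ∀ x, x ≤ k → P A σ j t x) :
    (F A)^[t] {σ j} = univ := by
  apply Finset.eq_univ_of_forall
  intro i
  obtain ⟨hx, h1⟩ := h (σ.symm i) (by have := (σ.symm i).2; omega)
  simpa using h1

/-- The digraph of singletons and a bad time for label `0` force the entry conditions. -/
theorem entries_of_bad (hm : 2 ≤ m) (hk : 1 ≤ k) {r : ℕ} (hr : ∀ j, (F A)^[r] {j} = univ)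
    (hbad : (F A)^[k ^ 2] {σ 0} ≠ univ)
    (hD : ∀ i j : Fin (k + 1), σ i ∈ F A {σ j} ↔
      ((j : ℕ) = i + 1 ∨ ((i : ℕ) + 1 = k + 1 ∧ (j : ℕ) ≤ 1))) :
    WielandtType (relabel A σ) := by
  have hW : WE A σ := by
    intro i j hij
    have h1 := (hD i j).2 hij
    rw [mem_F] at h1
    obtain ⟨f, hf, hl⟩ := h1
    have hf' : f = fun _ => σ j := by
      funext l
      exact Finset.mem_singleton.1 (hl l)
    rw [hf'] at hf
    exact hf
  have hno : ∀ t, t ≤ k ^ 2 → ¬ (∀ x, x ≤ k → P A σ 0 t x) := by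
    intro t ht hall
    exact hbad (full_trans (by omega) (F_mono A) (F_empty hm A) hr (j := σ 0) (v := σ 0) (a := 0)
      (b := t) (by simp) (full_of_P hall) (by omega))
  -- at time `k^2 - s` everything except `s` is reached, `s ≤ k - 1`
  have U : ∀ s x, s + 1 ≤ k → x ≤ k → x ≠ s → P A σ 0 (k ^ 2 - s) x := by
    intro s x hs hx hxs
    have hkk : k * 1 ≤ k * k := Nat.mul_le_mul_left _ hk
    obtain ⟨t, ht⟩ : ∃ t, k ^ 2 = s + (t + 1) := ⟨k ^ 2 - s - 1, by rw [pow_two]; omega⟩
    have ht' : k ^ 2 - s = t + 1 := by omega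
    rw [ht']
    rcases Nat.lt_or_ge s x with h | h
    · obtain ⟨e, he⟩ : ∃ e, x = s + (e + 1) := ⟨x - s - 1, by omega⟩
      obtain ⟨a, ha⟩ : ∃ a, k = (e + 1) + a := Nat.exists_eq_add_of_le (by omega)
      refine P_rep0 hW hk t x a e hx ?_
      have h1 : s + (t + 1 + x) = k ^ 2 + x := by omega
      have h2 : k ^ 2 = (e + 1) * k + a * k := by
        calc k ^ 2 = k * k := pow_two k
          _ = ((e + 1) + a) * k := by rw [← ha]
          _ = _ := by ring
      have h3 : (e + 1) * k = e * (k + 1) + k - e := by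
        have : (e + 1) * k = e * k + k := by ring
        have h4 : e * (k + 1) = e * k + e := by ring
        omega
      have h4 : e ≤ e * (k + 1) := Nat.le_mul_of_pos_right _ (by omega)
      omega
    · obtain ⟨d, hd⟩ : ∃ d, s = x + (d + 1) := ⟨s - x - 1, by omega⟩
      obtain ⟨b, hb⟩ : ∃ b, k = (d + 2) + b := Nat.exists_eq_add_of_le (by omega)
      refine P_rep0 hW hk t x d b hx ?_
      have h1 : s + (t + 1 + x) = k ^ 2 + x := by omega
      have h2 : k ^ 2 = (d + 2) * k + b * k := by
        calc k ^ 2 = k * k := pow_two k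
          _ = ((d + 2) + b) * k := by rw [← hb]
          _ = _ := by ring
      have h3 : (d + 2) * k = d * k + 2 * k := by ring
      have h4 : b * (k + 1) = b * k + b := by ring
      omega
  refine ⟨hW, ?_⟩
  intro i f hf
  by_contra hcon
  push Not at hcon
  obtain ⟨c1, c2, c3⟩ := hcon
  have hi := i.2
  rcases Nat.lt_or_ge ((i : ℕ) + 1) k with hik | hik
  · -- i ≤ n - 3
    have h1 : P A σ 0 (k ^ 2 - ((i : ℕ) + 1) + 1) i :=
      P_entry hf (fun l => U _ _ hik (by have := (f l).2; omega) (c1 l))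
    have hkk : k * 1 ≤ k * k := Nat.mul_le_mul_left _ hk
    have h2 : k ^ 2 - ((i : ℕ) + 1) + 1 = k ^ 2 - i := by
      rw [pow_two]; omega
    rw [h2] at h1
    refine hno (k ^ 2 - i) (Nat.sub_le _ _) ?_
    intro x hx
    by_cases hxi : x = i
    · rw [hxi]; exact h1
    · exact U _ _ (by omega) hx hxi
  · rcases Nat.lt_or_ge (i : ℕ) k with hik2 | hik2
    · -- i = n - 2
      have hi1 : (i : ℕ) + 1 = k := by omega
      by_cases hz : ∃ l, (f l : ℕ) = 0
      · have hall := c3 (by omega) hz
        have h1 : σ i ∈ F A {σ 0} := by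
          rw [mem_F]
          refine ⟨fun l => σ (f l), hf, fun l => ?_⟩
          have h0 : f l = 0 := Fin.ext (hall l)
          show σ (f l) ∈ _
          rw [h0]
          exact Finset.mem_singleton_self _
        have h2 := (hD i 0).1 h1
        simp at h2
        omega
      · push Not at hz
        have hk2 : 2 ≤ k := by
          have h3 := c1 ⟨0, by omega⟩
          have h4 := hz ⟨0, by omega⟩
          have h5 := (f ⟨0, by omega⟩).2
          omega
        obtain ⟨t, ht⟩ : ∃ t, k * k = k + (t + 1) := ⟨k * k - k - 1, by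
          have : 2 * k ≤ k * k := Nat.mul_le_mul_right _ hk2
          omega⟩
        have h1 : ∀ x, 1 ≤ x → x < k → P A σ 0 (t + 1) x := by
          intro x hx1 hx2
          obtain ⟨b, hb⟩ : ∃ b, x = b + 1 := ⟨x - 1, by omega⟩
          obtain ⟨a, ha⟩ : ∃ a, k = (b + 2) + a := Nat.exists_eq_add_of_le (by omega)
          refine P_rep0 hW hk t x a b (by omega) ?_
          have h2 : k * k = (b + 2) * k + a * k := by
            calc k * k = ((b + 2) + a) * k := by rw [← ha]
              _ = _ := by ring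
          have h3 : (b + 2) * k = b * k + 2 * k := by ring
          have h4 : b * (k + 1) = b * k + b := by ring
          omega
        have h2 : P A σ 0 (t + 1 + 1) i :=
          P_entry hf (fun l => h1 _ (by have := hz l; omega)
            (by have h3 := c1 l; have h4 := (f l).2; omega))
        have h3 : t + 1 + 1 = k ^ 2 - i := by rw [pow_two]; omega
        rw [h3] at h2
        refine hno (k ^ 2 - i) (Nat.sub_le _ _) ?_
        intro x hx
        by_cases hxi : x = i
        · rw [hxi]; exact h2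
        · exact U _ _ (by omega) hx hxi
    · -- i = n - 1
      have hi1 : (i : ℕ) = k := by omega
      have hge : ∀ l, 2 ≤ (f l : ℕ) := by
        intro l
        have := c2 (by omega) l
        omega
      have hk2 : 2 ≤ k := by
        have h4 := hge ⟨0, by omega⟩
        have h5 := (f ⟨0, by omega⟩).2
        omega
      obtain ⟨t, ht⟩ : ∃ t, k * k = k + 1 + (t + 1) := ⟨k * k - k - 1 - 1, by
        have : 2 * k ≤ k * k := Nat.mul_le_mul_right _ hk2
        omega⟩
      have h1 : ∀ x, 2 ≤ x → x ≤ k → P A σ 0 (t + 1) x := by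
        intro x hx1 hx2
        obtain ⟨b, hb⟩ : ∃ b, x = b + 2 := ⟨x - 2, by omega⟩
        obtain ⟨a, ha⟩ : ∃ a, k = (b + 2) + a := Nat.exists_eq_add_of_le (by omega)
        refine P_rep0 hW hk t x a b (by omega) ?_
        have h2 : k * k = (b + 2) * k + a * k := by
          calc k * k = ((b + 2) + a) * k := by rw [← ha]
            _ = _ := by ring
        have h3 : (b + 2) * k = b * k + 2 * k := by ring
        have h4 : b * (k + 1) = b * k + b := by ring
        omega
      have h2 : P A σ 0 (t + 1 + 1) i :=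
        P_entry hf (fun l => h1 _ (hge l) (by have h4 := (f l).2; omega))
      rw [hi1] at h2
      have h3 : ∀ x, 1 ≤ x → x ≤ k → P A σ 0 (t + 1 + 1) x := by
        intro x hx1 hx2
        by_cases hxk : x = k
        · rw [hxk]; exact h2
        · exact P_down hW (h1 (x + 1) (by omega) (by omega))
      refine hno (t + 1 + 1 + 1) (by rw [pow_two]; omega) ?_
      intro x hx
      by_cases hxk : x = k
      · rw [hxk]; exact P_wrap hW (le_refl 1) (h3 1 (le_refl _) hk)
      · exact P_down hW (h3 (x + 1) (by omega) (by omega))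

/-- The orbit of label `0` under a tensor of Wielandt type. -/
theorem orbit_upper (hB : WielandtType (relabel A σ)) :
    ∀ t x : ℕ, P A σ 0 (t + 1) x → ∃ a b, t + 1 + x = (k + 1) + a * k + b * (k + 1) := by
  intro t
  induction t with
  | zero =>
    intro x h
    rw [P_succ_iff] at h
    obtain ⟨i, hi, f, hf, hl⟩ := h
    have hl' : ∀ l, (f l : ℕ) = 0 := by
      intro l
      obtain ⟨h1, h2⟩ := hl l
      rw [Function.iterate_zero, id, Finset.mem_singleton] at h2
      have := σ.injective h2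
      exact congrArg Fin.val this
    rcases hB.2 i f hf with ⟨l, h⟩ | ⟨h, -⟩ | ⟨-, -, l, h⟩
    · exact absurd (hl' l) (by omega)
    · exact ⟨0, 0, by omega⟩
    · exact absurd (hl' l) h
  | succ t ih =>
    intro x h
    rw [P_succ_iff] at h
    obtain ⟨i, hi, f, hf, hl⟩ := h
    have hik := i.2
    rcases hB.2 i f hf with ⟨l, h⟩ | ⟨h, l, hl1⟩ | ⟨h, ⟨l, hl0⟩, -⟩
    · obtain ⟨a, b, hab⟩ := ih _ (hl l)
      exact ⟨a, b, by omega⟩
    · obtain ⟨a, b, hab⟩ := ih _ (hl l)
      rcases Nat.eq_zero_or_pos (f l : ℕ) with h0 | h0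
      · refine ⟨a, b + 1, ?_⟩
        have : (b + 1) * (k + 1) = b * (k + 1) + (k + 1) := by ring
        omega
      · refine ⟨a + 1, b, ?_⟩
        have : (a + 1) * k = a * k + k := by ring
        omega
    · obtain ⟨a, b, hab⟩ := ih _ (hl l)
      refine ⟨a + 1, b, ?_⟩
      have : (a + 1) * k = a * k + k := by ring
      omega

theorem not_good (hk : 1 ≤ k) (hB : WielandtType (relabel A σ)) :
    (F A)^[k ^ 2] {σ 0} ≠ univ := by
  intro hfull
  have hkk : k * 1 ≤ k * k := Nat.mul_le_mul_left _ hk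
  obtain ⟨t, ht⟩ : ∃ t, k ^ 2 = t + 1 := ⟨k ^ 2 - 1, by rw [pow_two]; omega⟩
  have h1 : P A σ 0 (t + 1) 0 := ⟨by omega, by rw [← ht, hfull]; exact Finset.mem_univ _⟩
  obtain ⟨a, b, hab⟩ := orbit_upper hB t 0 h1
  have h2 : k * k = (a + b + 1) * k + (b + 1) := by
    calc k * k = k ^ 2 := (pow_two k).symm
      _ = t + 1 + 0 := by rw [ht]
      _ = (k + 1) + a * k + b * (k + 1) := hab
      _ = _ := by ring
  have h3 : k ∣ b + 1 := by
    have h4 : k ∣ (a + b + 1) * k + (b + 1) := by rw [← h2]; exact Nat.dvd_mul_left _ _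
    exact (Nat.dvd_add_right (Nat.dvd_mul_left _ _)).1 h4
  have h4 : k ≤ b + 1 := Nat.le_of_dvd (by omega) h3
  have h5 : k * k ≤ (a + b + 1) * k := Nat.mul_le_mul_right _ (by omega)
  omega

theorem good (hk : 1 ≤ k) (hB : WielandtType (relabel A σ)) :
    ∀ j, (F A)^[k ^ 2 + 1] {j} = univ := by
  have hW : WE A σ := hB.1
  intro j'
  obtain ⟨j, rfl⟩ := σ.surjective j'
  apply full_of_P
  intro x hx
  have hjk := j.2
  obtain ⟨q, hq⟩ : ∃ q, k = q + 1 := ⟨k - 1, by omega⟩
  have hkk : k * k = k * (k - 1) + k := by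
    rw [hq, Nat.add_sub_cancel]; ring
  rcases Nat.eq_zero_or_pos (j : ℕ) with h0 | h0
  · have hj0 : j = 0 := Fin.ext h0
    subst hj0
    obtain ⟨a, b, hab⟩ := rep_large hk (N := k * (k - 1) + x) (Nat.le_add_right _ _)
    refine P_rep0 hW hk (k ^ 2) x a b hx ?_
    rw [pow_two]
    omega
  · obtain ⟨a, b, hab⟩ := rep_large hk (N := k * k + 1 + x - j) (by omega)
    refine P_repj hW hk j h0 (k ^ 2 + 1) x a b hx ?_
    rw [pow_two]
    omega

end Entries

/-- **Characterization of the primitive tensors of maximal primitive degree.**  Let `m, n ≥ 2` and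
let `A` be a nonnegative tensor of order `m` and dimension `n`.  Then `A` is primitive with
`γ(A) = (n-1)^2+1` if and only if some relabelling of `A` is of Wielandt type. -/
theorem result (m n : ℕ) (hm : 2 ≤ m) (hn : 2 ≤ n) (A : Tensor m n) (hA : ∀ i f, 0 ≤ A i f) :
    (Primitive A ∧ gamma A = (n - 1) ^ 2 + 1) ↔
      ∃ σ : Equiv.Perm (Fin n), WielandtType (relabel A σ) := by
  obtain ⟨k, rfl⟩ : ∃ k, n = k + 1 := ⟨n - 1, by omega⟩
  have hk : 1 ≤ k := by omega
  rw [Nat.add_sub_cancel]
  constructor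
  · rintro ⟨⟨r, hr⟩, hg⟩
    rw [mem_goodExponents hm A hA] at hr
    have hnot : k ^ 2 ∉ goodExponents A := by
      apply Nat.notMem_of_lt_sInf
      show k ^ 2 < gamma A
      omega
    rw [mem_goodExponents hm A hA] at hnot
    have hk2 : 1 ≤ k ^ 2 := Nat.one_le_pow _ _ hk
    obtain ⟨j0, hj0⟩ : ∃ j0, (F A)^[k ^ 2] {j0} ≠ univ := by
      by_contra hcon
      push Not at hcon
      exact hnot ⟨hk2, hcon⟩
    obtain ⟨σ, hσ0, hσ⟩ := wielandt_digraph hn (F_mono A) (F_empty hm A) hr.2 (j0 := j0)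
      (by rw [Nat.add_sub_cancel]; exact hj0)
    have hσ0' : σ 0 = j0 := hσ0
    refine ⟨σ, entries_of_bad hm hk hr.2 (by rw [hσ0']; exact hj0) hσ⟩
  · rintro ⟨σ, hσ⟩
    have h1 : k ^ 2 + 1 ∈ goodExponents A := by
      rw [mem_goodExponents hm A hA]
      exact ⟨by omega, good hk hσ⟩
    refine ⟨⟨_, h1⟩, ?_⟩
    apply le_antisymm
    · exact Nat.sInf_le h1
    · apply le_csInf ⟨_, h1⟩
      intro r hr
      rw [mem_goodExponents hm A hA] at hr
      by_contra hcon
      exact not_good hk hσ (good_of_le (by omega) (F_mono A) (F_empty hm A) hr.2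
        (by omega) (σ 0))

end Pool.Agent.Results.MP_9d720b_co.ExtremalPrimitiveTensors
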